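import Pool.Agent.Helper826.Kap.Defs

/-!
MP_f21a8b_al: wreath products with nil augmentation ideal.
-/

set_option autoImplicit false

namespace Pool.Agent.Results.MP_f21a8b_al.WreathProducts

open Pool.Agent.Helper826.Kap

/-- Let `K` be a field. (1) If `G` is a group such that `ω(K[G])` is nil, `D` is a nontrivial
group and the restricted wreath product `D ≀ Q` embeds in `G`, then `Q` is locally finite.
(2) If `D` is a nontrivial locally finite group and `ω(K[D ≀ Q])` is nil, then `D ≀ Q` is locally
finite. -/
theorem result (K : Type) [Field K] :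
    (∀ (G D Q : Type) [Group G] [Group D] [Nontrivial D] [Group Q] (φ : Wr D Q →* G),
      Function.Injective φ → NilAug K G → LocFin Q) ∧
    (∀ (D Q : Type) [Group D] [Nontrivial D] [Group Q], LocFin D → NilAug K (Wr D Q) →
      LocFin (Wr D Q)) := by
  constructor
  · intro G D Q _ _ _ _ φ hφ hnil S
    exact wreath_nil K D Q (nil_of_embed K φ hφ hnil) S
  · intro D Q _ _ _ hD hnil
    exact wreath_locally_finite D Q hD (wreath_nil K D Q hnil)

end Pool.Agent.Results.MP_f21a8b_al.WreathProducts
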